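import Pool.Agent.Work.MP_6f54aa_an.Ideals
import Pool.Agent.Work.MP_6f54aa_an.Amen

/-!
# Equality of the geometric and the ghostly ideal does not imply partial Property A

Let `Y` be the disjoint union of finite quotients `Q_m` of the free group of rank two such that the
balls of radius `m / 2` embed in `Q_m`, and let `X` be the disjoint union of infinitely many copies
`{n} × Q_m` of each of them, with all pieces further and further apart. Let `ω` be a free ultrafilter
on `ℕ`, let `Z ⊆ β X` be the closure of the set of the points `lim_{n → ω} (n, y)`, `y ∈ Y`, and
let `U` be the complement of `Z`. If `T` lies in the ghostly ideal of `U`, then for each fixed `m`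
the rows of `T` in the copy `{n} × Q_m` tend to `0` along `ω`; hence the set `A` of
the pieces on which `T` is not small has closure in `U`, and `T` lies in the geometric ideal.
However, `G(X)_Z` contains the coarse groupoid of `Y`, which is not amenable.
-/

open GhostIdeals

/-- There are a metric space `X` of bounded geometry which is strongly discrete and a non-empty
invariant open subset `U` of `β X` such that the ghostly ideal of `U` equals the geometric ideal
of `U`, but the groupoid `G(X)_{β X ∖ U}` is not amenable. -/
theorem Pool.Agent.Results.MP_6f54aa_an.GhostlyWithoutA.result :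
    ∃ (X : Type) (_ : MetricSpace X), BoundedGeometry X ∧ StronglyDiscrete X ∧
      ∃ U : Set (Ultrafilter X), IsOpen U ∧ U.Nonempty ∧ IsInvariant X U ∧
        ghostlyIdeal X U = geometricIdeal X U ∧ ¬ IsAmenable X Uᶜ :=
  ⟨Pt, inferInstance, Pt.boundedGeometry, Pt.stronglyDiscrete, Zsetᶜ, isOpen_compl,
    nonempty_compl, invariant, (Raw.eq_iff _).2 Raw.ideals_eq, by rw [compl_compl]; exact not_amenable⟩
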